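import Mathlib
import Pool.Agent.Q104.Hoff

/-!
# Ramanujan graphs of degrees `4` and `5` with small connectivity codes
-/

set_option autoImplicit false

namespace Pool.Agent.Results.MP_7d4bc7_co.SmallCut

open Matrix Finset

section defs

variable {V : Type} [Fintype V] [DecidableEq V]

/-- a connectivity code: a finite family of spanning subgraphs of `H` (given as graphs on the same
vertex set contained in `H`) such that the symmetric difference of any two distinct members is
connected on the full vertex set -/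
def IsCode (H : SimpleGraph V) (C : Finset (SimpleGraph V)) : Prop :=
  (∀ G ∈ C, G ≤ H) ∧ ∀ G₁ ∈ C, ∀ G₂ ∈ C, G₁ ≠ G₂ → (symmDiff G₁ G₂).Connected

/-- the largest size of a connectivity code for `H` -/
noncomputable def m (H : SimpleGraph V) : ℕ :=
  sSup {k | ∃ C : Finset (SimpleGraph V), IsCode H C ∧ C.card = k}

/-- `H` is `d`-regular and every nontrivial adjacency eigenvalue has modulus at most `2 √(d - 1)`;
the eigenvalues are listed in decreasing order `λ₁ = eigenvalues₀ 0, …, λₙ = eigenvalues₀ (n - 1)`,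
and the trivial ones are `λ₁` and, when `H` is bipartite, `λₙ` -/
def IsRamanujan (H : SimpleGraph V) [DecidableRel H.Adj] (d : ℕ) : Prop :=
  H.IsRegularOfDegree d ∧ ∀ (hA : (H.adjMatrix ℝ).IsHermitian) (i : Fin (Fintype.card V)),
    (i : ℕ) ≠ 0 → ¬ (H.IsBipartite ∧ (i : ℕ) + 1 = Fintype.card V) →
      |hA.eigenvalues₀ i| ≤ 2 * Real.sqrt ((d : ℝ) - 1)

/-- the cut bound -/
lemma card_le_of_cut (H : SimpleGraph V) (W : Set V) (u v : V) (hu : u ∈ W) (hv : v ∉ W)
    (F : Finset (V × V)) (hF : ∀ x ∈ W, ∀ y ∉ W, H.Adj x y → (x, y) ∈ F)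
    (C : Finset (SimpleGraph V)) (hC : IsCode H C) : C.card ≤ 2 ^ F.card := by
  classical
  rw [← Finset.card_powerset]
  refine Finset.card_le_card_of_injOn (fun G => F.filter (fun p => G.Adj p.1 p.2)) ?_ ?_
  · intro G _
    simp only [Finset.coe_powerset, Set.mem_preimage, Set.mem_powerset_iff, Finset.coe_subset]
    exact Finset.filter_subset _ _
  · intro G₁ h₁ G₂ h₂ h12
    by_contra hne
    obtain ⟨p⟩ := (hC.2 G₁ h₁ G₂ h₂ hne).preconnected u v
    obtain ⟨e, -, he1, he2⟩ := p.exists_boundary_dart W hu hv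
    have hadj := e.adj
    have hH : H.Adj e.fst e.snd := by
      have h3 : symmDiff G₁ G₂ ≤ H := symmDiff_le (le_trans (hC.1 G₁ h₁) le_sup_right)
        (le_trans (hC.1 G₂ h₂) le_sup_right) |>.trans (by simp)
      exact h3 hadj
    have hmem := hF _ he1 _ he2 hH
    have h4 : (e.fst, e.snd) ∈ F.filter (fun p => G₁.Adj p.1 p.2) ↔
        (e.fst, e.snd) ∈ F.filter (fun p => G₂.Adj p.1 p.2) := by
      simp only at h12
      rw [h12]
    simp only [Finset.mem_filter, hmem, true_and] at h4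
    have h5 : ∀ x y, (symmDiff G₁ G₂).Adj x y → ((G₁.Adj x y ∧ ¬ G₂.Adj x y) ∨
        (G₂.Adj x y ∧ ¬ G₁.Adj x y)) := by
      intro x y hxy
      rwa [symmDiff_def, SimpleGraph.sup_adj, SimpleGraph.sdiff_adj, SimpleGraph.sdiff_adj] at hxy
    have h6 := h5 _ _ hadj
    tauto

lemma m_le_of_cut (H : SimpleGraph V) (W : Set V) (u v : V) (hu : u ∈ W) (hv : v ∉ W)
    (F : Finset (V × V)) (hF : ∀ x ∈ W, ∀ y ∉ W, H.Adj x y → (x, y) ∈ F) :
    m H ≤ 2 ^ F.card := by
  refine csSup_le ⟨0, ∅, ⟨by simp, by simp⟩, by simp⟩ ?_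
  rintro k ⟨C, hC, rfl⟩
  exact card_le_of_cut H W u v hu hv F hF C hC

lemma adj_ones (H : SimpleGraph V) [DecidableRel H.Adj] (d : ℕ) (h : H.IsRegularOfDegree d) :
    H.adjMatrix ℝ *ᵥ (fun _ => 1) = (d : ℝ) • (fun _ => (1 : ℝ)) := by
  ext i
  have := SimpleGraph.adjMatrix_mulVec_const_apply_of_regular (G := H) (a := (1 : ℝ)) (v := i) h
  simpa [Function.const_def] using this

/-- criterion for the Ramanujan property through a Hoffman polynomial -/
lemma ramanujan_of [Nonempty V] (H : SimpleGraph V) [DecidableRel H.Adj] (d : ℕ)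
    (hreg : H.IsRegularOfDegree d) (M : Matrix V V ℝ) (f : ℝ → ℝ)
    (hM : ∀ (v : V → ℝ) (t : ℝ), H.adjMatrix ℝ *ᵥ v = t • v → M *ᵥ v = f t • v)
    (c : ℝ) (hc : c ≠ 0) (hMJ : ∀ i j, M i j = c)
    (hf : ∀ t : ℝ, f t = 0 → |t| ≤ 2 * Real.sqrt ((d : ℝ) - 1))
    (hfd : ∀ t : ℝ, f t = 0 → t ≤ d) : IsRamanujan H d := by
  refine ⟨hreg, fun hA i hi _ => ?_⟩
  obtain ⟨h1, h2⟩ := Q104.Hoff.hoff hA M f hM c hc hMJ d (adj_ones H d hreg)
  obtain ⟨e, he⟩ := Q104.Hoff.exists_index hA
  rw [he]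
  refine hf _ (h1 _ ?_)
  intro h3
  have h0 : 0 < Fintype.card V := Fintype.card_pos
  have h4 : hA.eigenvalues₀ i ≤ hA.eigenvalues₀ ⟨0, h0⟩ :=
    hA.eigenvalues₀_antitone (Nat.zero_le _)
  rw [he, he, h3] at h4
  have h5 : hA.eigenvalues (e ⟨0, h0⟩) = d := by
    by_contra h6
    exact h6 (le_antisymm (hfd _ (h1 _ h6)) h4)
  have h7 := e.injective (h2 _ _ h3 h5)
  exact hi (congrArg Fin.val h7)

end defs

/-! ### degree four -/

/-- adjacency of two copies of `K₅` minus the edge `01`, joined by the edges `05` and `16` -/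
def a4 (i j : Fin 10) : Bool :=
  (i != j) && ((i.val < 5 && j.val < 5 && !(i.val < 2 && j.val < 2)) ||
    (5 ≤ i.val && 5 ≤ j.val && !(i.val < 7 && j.val < 7)) ||
    (i.val < 2 && j.val == i.val + 5) || (j.val < 2 && i.val == j.val + 5))

/-- the graph of degree four -/
def H4 : SimpleGraph (Fin 10) where
  Adj i j := a4 i j = true
  symm := ⟨by decide⟩
  loopless := ⟨by decide⟩

instance : DecidableRel H4.Adj := fun i j => inferInstanceAs (Decidable (a4 i j = true))

/-- the integer adjacency matrix -/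
def A4 : Matrix (Fin 10) (Fin 10) ℤ := Matrix.of fun i j => if a4 i j then 1 else 0

lemma adj4 : H4.adjMatrix ℝ = (Int.castRingHom ℝ).mapMatrix A4 := by
  ext i j
  rw [RingHom.mapMatrix_apply, Matrix.map_apply, SimpleGraph.adjMatrix_apply]
  change (if a4 i j = true then (1 : ℝ) else 0) = Int.castRingHom ℝ (if a4 i j = true then 1 else 0)
  split_ifs <;> simp

lemma hoff4 : ((A4 * A4 - 1) * (A4 * A4 - A4 - 8 • 1)) = 6 • Matrix.of fun _ _ => 1 := by
  decide +kernel

lemma reg4 : H4.IsRegularOfDegree 4 := by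
  intro v
  revert v
  decide +kernel

lemma ram4 : IsRamanujan H4 4 := by
  have hs3 : (17 / 10 : ℝ) ≤ Real.sqrt ((4 : ℕ) - 1) := by
    apply Real.le_sqrt_of_sq_le; norm_num
  have key : ∀ t : ℝ, (t * t - 1) * (t * t - t - 8) = 0 → |t| ≤ 17 / 5 := by
    intro t ht
    rw [abs_le]
    rcases mul_eq_zero.mp ht with h | h
    · constructor <;> nlinarith
    · constructor <;> nlinarith
  refine ramanujan_of H4 4 reg4
    (((H4.adjMatrix ℝ * H4.adjMatrix ℝ - 1) *
      (H4.adjMatrix ℝ * H4.adjMatrix ℝ - H4.adjMatrix ℝ - 8 • 1)))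
    (fun t => (t * t - 1) * (t * t - t - 8)) ?_ 6 (by norm_num) ?_ ?_ ?_
  · intro v t hv
    simp only [← Matrix.mulVec_mulVec, Matrix.sub_mulVec, Matrix.one_mulVec, Matrix.smul_mulVec,
      hv, Matrix.mulVec_smul, Matrix.mulVec_sub, smul_sub]
    ext i
    simp only [Pi.sub_apply, Pi.smul_apply, smul_eq_mul]
    simp only [nsmul_eq_mul, Nat.cast_ofNat]
    ring
  · intro i j
    have h := congrArg (Int.castRingHom ℝ).mapMatrix hoff4
    rw [map_mul, map_sub, map_sub, map_sub, map_mul, map_one, map_nsmul, map_nsmul, map_one,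
      ← adj4] at h
    rw [h]
    simp [RingHom.mapMatrix_apply]
  · intro t ht
    refine (key t ht).trans ?_
    refine le_trans (by norm_num) (mul_le_mul_of_nonneg_left hs3 (by norm_num : (0 : ℝ) ≤ 2))
  · intro t ht
    have := (abs_le.mp (key t ht)).2
    norm_num
    linarith

/-! ### degree five -/

/-- adjacency of two copies of `K₆` minus the edges `01` and `23`, joined by the edges
`06`, `17`, `28` and `39` -/
def a5 (i j : Fin 12) : Bool :=
  (i != j) && ((i.val < 6 && j.val < 6 && !(i.val < 4 && i.val / 2 == j.val / 2)) ||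
    (6 ≤ i.val && 6 ≤ j.val && !(i.val < 10 && i.val / 2 == j.val / 2)) ||
    (i.val < 4 && j.val == i.val + 6) || (j.val < 4 && i.val == j.val + 6))

/-- the graph of degree five -/
def H5 : SimpleGraph (Fin 12) where
  Adj i j := a5 i j = true
  symm := ⟨by decide⟩
  loopless := ⟨by decide⟩

instance : DecidableRel H5.Adj := fun i j => inferInstanceAs (Decidable (a5 i j = true))

/-- the integer adjacency matrix -/
def A5 : Matrix (Fin 12) (Fin 12) ℤ := Matrix.of fun i j => if a5 i j then 1 else 0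

lemma adj5 : H5.adjMatrix ℝ = (Int.castRingHom ℝ).mapMatrix A5 := by
  ext i j
  rw [RingHom.mapMatrix_apply, Matrix.map_apply, SimpleGraph.adjMatrix_apply]
  change (if a5 i j = true then (1 : ℝ) else 0) = Int.castRingHom ℝ (if a5 i j = true then 1 else 0)
  split_ifs <;> simp

lemma hoff5 : ((A5 * A5 - 1) * ((A5 + 3 • 1) * (A5 * A5 - 2 • A5 - 7 • 1)))
    = 128 • Matrix.of fun _ _ => 1 := by
  decide +kernel

lemma reg5 : H5.IsRegularOfDegree 5 := by
  intro v
  revert v
  decide +kernel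

lemma ram5 : IsRamanujan H5 5 := by
  have hs3 : (2 : ℝ) ≤ Real.sqrt ((5 : ℕ) - 1) := by
    apply Real.le_sqrt_of_sq_le; norm_num
  have key : ∀ t : ℝ, (t * t - 1) * ((t + 3) * (t * t - 2 * t - 7)) = 0 → |t| ≤ 4 := by
    intro t ht
    rw [abs_le]
    rcases mul_eq_zero.mp ht with h | h
    · constructor <;> nlinarith
    · rcases mul_eq_zero.mp h with h | h
      · constructor <;> linarith
      · constructor <;> nlinarith
  refine ramanujan_of H5 5 reg5
    ((H5.adjMatrix ℝ * H5.adjMatrix ℝ - 1) * ((H5.adjMatrix ℝ + 3 • 1) *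
      (H5.adjMatrix ℝ * H5.adjMatrix ℝ - 2 • H5.adjMatrix ℝ - 7 • 1)))
    (fun t => (t * t - 1) * ((t + 3) * (t * t - 2 * t - 7))) ?_ 128 (by norm_num) ?_ ?_ ?_
  · intro v t hv
    simp only [← Matrix.mulVec_mulVec, Matrix.sub_mulVec, Matrix.add_mulVec, Matrix.one_mulVec,
      Matrix.smul_mulVec, hv, Matrix.mulVec_smul, Matrix.mulVec_sub, Matrix.mulVec_add, smul_sub]
    ext i
    simp only [Pi.sub_apply, Pi.add_apply, Pi.smul_apply, smul_eq_mul]
    simp only [nsmul_eq_mul, Nat.cast_ofNat]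
    ring
  · intro i j
    have h := congrArg (Int.castRingHom ℝ).mapMatrix hoff5
    rw [map_mul, map_mul, map_sub, map_sub, map_sub, map_add, map_mul, map_one, map_nsmul,
      map_nsmul, map_nsmul, map_nsmul, map_one, ← adj5] at h
    rw [h]
    simp [RingHom.mapMatrix_apply]
  · intro t ht
    linarith [key t ht]
  · intro t ht
    have := (abs_le.mp (key t ht)).2
    norm_num
    linarith

/-- **There are Ramanujan graphs of degrees `4` and `5`, on `10` and `12` vertices, whose largest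
connectivity codes are smaller than `2 ^ d`.** -/
theorem result :
    (∃ (V : Type) (_ : Fintype V) (_ : DecidableEq V) (H : SimpleGraph V) (_ : DecidableRel H.Adj),
      Fintype.card V = 10 ∧ IsRamanujan H 4 ∧ m H ≤ 2 ^ 2) ∧
    (∃ (V : Type) (_ : Fintype V) (_ : DecidableEq V) (H : SimpleGraph V) (_ : DecidableRel H.Adj),
      Fintype.card V = 12 ∧ IsRamanujan H 5 ∧ m H ≤ 2 ^ 4) := by
  refine ⟨⟨Fin 10, inferInstance, inferInstance, H4, inferInstance, rfl, ram4, ?_⟩,
    ⟨Fin 12, inferInstance, inferInstance, H5, inferInstance, rfl, ram5, ?_⟩⟩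
  · refine (m_le_of_cut H4 {x | x.val < 5} 0 5 (by simp) (by simp) {(0, 5), (1, 6)} ?_).trans ?_
    · simp only [Set.mem_ofPred_eq]
      decide
    · decide
  · refine (m_le_of_cut H5 {x | x.val < 6} 0 6 (by simp) (by simp)
      {(0, 6), (1, 7), (2, 8), (3, 9)} ?_).trans ?_
    · simp only [Set.mem_ofPred_eq]
      decide
    · decide

end Pool.Agent.Results.MP_7d4bc7_co.SmallCut
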